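import Pool.Agent.H72.GM.M10

/-!
# Loss of smoothness for the time-dependent gauged sigma model

There are smooth finite energy initial data (in `ℝ^{2,1}`, values in the sphere, Gauss law, boundary
condition) and a time `T > 0` such that in no gauge the Euler-Lagrange equations have a smooth
solution on `[0,T)` which starts from the data.  Definitions: `Pool/Agent/H72/GS/Defs.lean`.
-/

namespace Pool.Agent.Results.MP_c266fd_an.SmoothBlowup

open H72GS

theorem result : ∃ d : InitData, d.Smooth ∧ d.OnSphere ∧ d.Gauss ∧ d.FiniteEnergy ∧ d.Boundary ∧
    ∃ T > 0, ¬ ∃ c : Config, IsSolutionFrom d T c :=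
  H72GS.main

end Pool.Agent.Results.MP_c266fd_an.SmoothBlowup
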